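import Pool.Agent.J4H66.MG.Decay
import Pool.Agent.Results.MP_8be4c0_mp.MassLowerBound

/-!
# The mass of the two-dimensional N-vector models, N ≥ 3, is at least `exp (-C (1 + β))`

For every exponentially decaying ferromagnetic coupling `J` on `ℤ²` there is a constant `C` such
that for every `N ≥ 3` and every `β > 0` the mass is at least `exp (-C (1 + β))` and the
susceptibility is at most `exp (C (1 + β))`. The exponent is of the order predicted by
asymptotic freedom: for fixed `N` and large `β` the mass is known to be at most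
`C exp (-c β / N)`. The bound known before was `exp (-C (1 + β ^ 2))` (`MassLowerBound`).

Proof: a renormalised form of the non-abelian point splitting of `MassGap`. A renormalised score
of range `r` (`Pool.Agent.J4H66.MG.ESS`) is a local field `w x g` of polynomials in the spins
which satisfies the integration by parts formulas of the generators of the rotations, for all
rotation fields which are constant on the scale `r`, in all Gibbs functionals with all boundary
conditions. Its stiffness (`NB`) is the best constant in the second moment bound for Lipschitz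
rotation fields, uniformly in the boundary conditions. Point splitting of a renormalised score at
a larger scale gives another one (`ESS_pw`). The correlation of the point split scores of two
scales is exactly three times the anisotropy of the second moments of `w` (`two_scale`), which
is small after `O(κ)` scales (`quad_bound`). The second moment of a point split score is `O(κ²)`,
because the difference of two adjacent scales consists of products of separated scores, for which
only second moments, uniform in the boundary conditions, are needed (`diff_bound`,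
`split_bound`). So the average over `n = O(1 + κ)` scales halves the stiffness (`rg_half`), and
`κ + κ / 2 + κ / 4 + ... = 2 κ` scales lead from the stiffness `κ` of the order of `β` to a small
one (`rg_iter`, `main_bound`).
-/

set_option autoImplicit false

noncomputable section

namespace Pool.Agent.Results.MP_8be4c0_mp.AsymptoticFreedomScale

open MeasureTheory Pool.Agent.H5R2.ON Pool.Agent.H717R2.ON3 Pool.Agent.H983R2.ONJ
open Pool.Agent.Y13.QM Pool.Agent.J4H66.MG Pool.Agent.Results.MP_8be4c0_mp.MassLowerBound

/-- **Lower bound for the mass.** Let `J` be any ferromagnetic, exponentially decaying coupling on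
`ℤ²`. There is `C` such that for all `N ≥ 3` and `β > 0` the spin correlations on every torus and
in every infinite volume limit decay at rate `exp (-C (1 + β))`; the susceptibility of every such
limit is at most `exp (C (1 + β))` and its mass is at least `exp (-C (1 + β))`. -/
theorem result (J : ℤ × ℤ → ℝ) (hJ : Admissible J) :
    ∃ C : ℝ, 0 < C ∧ ∀ N : ℕ, 3 ≤ N → ∀ β : ℝ, 0 < β →
      (∀ (L : ℕ) [NeZero L] (x y : Tor L), |corr N L J β x y| ≤
        Real.exp 2 * Real.exp (-Real.exp (-(C * (1 + β))) * tnorm (x - y))) ∧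
      ∀ G : ℤ × ℤ → ℝ, IsLimitCorr N J β G →
        (∀ x, |G x| ≤ Real.exp 2 * Real.exp (-Real.exp (-(C * (1 + β))) * znorm x)) ∧
        Summable G ∧ ∑' x, G x ≤ Real.exp (C * (1 + β)) ∧
        ∀ μ : ℝ, (∀ n : ℕ, 0 < G (n, 0)) →
          Filter.Tendsto (fun n : ℕ => -(1 / (n : ℝ)) * Real.log (G (n, 0))) Filter.atTop
            (nhds μ) → Real.exp (-(C * (1 + β))) ≤ μ := by
  obtain ⟨A, a, ha, hJd⟩ := hJ.decay
  obtain ⟨A', hA', hper⟩ := Jper_le ha hJd
  obtain ⟨C0, hC0, hdec⟩ := corS_decayL (a / 2) (by linarith)
  obtain ⟨C1, hC1⟩ : ∃ C1 : ℝ, C1 = C0 * (1 + A') := ⟨_, rfl⟩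
  have hC1' : 1 ≤ C1 := by
    rw [hC1]
    nlinarith [sq_nonneg A', mul_nonneg (show 0 ≤ C0 by linarith) (sq_nonneg A')]
  refine ⟨2 * C1 + 8, by linarith, ?_⟩
  intro N hN β hβ
  have hN0 : N ≠ 0 := by omega
  have hβ2 : 0 ≤ β ^ 2 := sq_nonneg β
  -- the rate for the coupling constant `β A'`
  obtain ⟨b, hb⟩ : ∃ b : ℝ, b = Real.exp (-(C1 * (1 + β))) := ⟨_, rfl⟩
  have hb0 : 0 < b := by rw [hb]; exact Real.exp_pos _
  have hb1 : b ≤ 1 := by
    rw [hb]
    refine Real.exp_le_one_iff.2 ?_
    nlinarith
  have hrate : b ≤ Real.exp (-(C0 * (1 + (β * A')))) := by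
    rw [hb]
    refine Real.exp_le_exp.2 (neg_le_neg ?_)
    rw [hC1, mul_assoc]
    refine mul_le_mul_of_nonneg_left ?_ (by linarith)
    nlinarith [sq_nonneg A', hβ2]
  have htor : ∀ (L : ℕ) [NeZero L] (x y : Tor L), 0 ≤ corr N L J β x y ∧
      |corr N L J β x y| ≤ Real.exp 2 * Real.exp (-b * tnorm (x - y)) := by
    intro L _ x y
    have hE : ExpC (β * A') (a / 2) (cJ L J β) := by
      intro e
      unfold cJ
      split_ifs with h
      · exact ⟨le_rfl, mul_nonneg (by positivity) (Real.exp_pos _).le⟩
      · refine ⟨mul_nonneg hβ.le (Jper_nonneg hJ.nonneg (sub_ne_zero.2 h)), ?_⟩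
        rw [mul_assoc, tnorm_sub_comm]
        exact mul_le_mul_of_nonneg_left (hper L _) hβ.le
    have h0 : 0 ≤ corr N L J β x y := by
      rw [corr_eq]
      exact corS_nonneg hN0 (fun e => (hE e).1) x y
    refine ⟨h0, ?_⟩
    rw [abs_of_nonneg h0, corr_eq]
    refine (hdec (β * A') (by positivity) N hN L (cJ L J β) hE x y).trans ?_
    refine mul_le_mul_of_nonneg_left (Real.exp_le_exp.2 ?_) (Real.exp_pos _).le
    have := tnorm_nonneg (x - y)
    nlinarith
  obtain ⟨b', hb'⟩ : ∃ b' : ℝ, b' = Real.exp (-((2 * C1 + 8) * (1 + β))) := ⟨_, rfl⟩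
  have hb'b : b' ≤ b := by
    rw [hb', hb]
    refine Real.exp_le_exp.2 (neg_le_neg ?_)
    nlinarith
  rw [← hb']
  refine ⟨?_, ?_⟩
  · intro L _ x y
    refine (htor L x y).2.trans ?_
    refine mul_le_mul_of_nonneg_left (Real.exp_le_exp.2 ?_) (Real.exp_pos _).le
    have := tnorm_nonneg (x - y)
    nlinarith
  intro G hG
  obtain ⟨l, hl, hlim⟩ := hG
  have hbound : ∀ x, |G x| ≤ Real.exp 2 * Real.exp (-b * znorm x) := by
    intro x
    refine le_of_tendsto (hlim x).abs ?_
    filter_upwards [hl.eventually_ge_atTop (2 * (x.1.natAbs + x.2.natAbs))] with n hn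
    refine (htor (l n + 1) _ _).2.trans (le_of_eq ?_)
    congr 2
    rw [zero_sub, tnorm_neg]
    have h1 : |x.1| * 2 < ((l n + 1 : ℕ) : ℤ) := by
      have : (|x.1| : ℤ) = x.1.natAbs := (Int.natCast_natAbs x.1).symm
      rw [this]; push_cast; omega
    have h2 : |x.2| * 2 < ((l n + 1 : ℕ) : ℤ) := by
      have : (|x.2| : ℤ) = x.2.natAbs := (Int.natCast_natAbs x.2).symm
      rw [this]; push_cast; omega
    have := tnorm_cast (L := l n + 1) x.1 x.2 (by exact_mod_cast h1) (by exact_mod_cast h2)
    rw [this]
    rfl
  have hsum : Summable G := by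
    refine Summable.of_norm_bounded (g := fun x => Real.exp 2 * Real.exp (-b * znorm x))
      ((summable_exp_znorm b hb0).mul_left _) fun x => ?_
    rw [Real.norm_eq_abs]
    exact hbound x
  refine ⟨?_, hsum, ?_, ?_⟩
  · intro x
    refine (hbound x).trans ?_
    refine mul_le_mul_of_nonneg_left (Real.exp_le_exp.2 ?_) (Real.exp_pos _).le
    have : 0 ≤ znorm x := Real.sqrt_nonneg _
    nlinarith
  · have h1 : ∑' x, G x ≤ ∑' x : ℤ × ℤ, Real.exp 2 * Real.exp (-b * znorm x) :=
      hsum.tsum_le_tsum (fun x => (le_abs_self _).trans (hbound x))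
        ((summable_exp_znorm b hb0).mul_left _)
    rw [tsum_mul_left] at h1
    have h2 := tsum_exp_znorm_le hb0 hb1
    have h3 : Real.exp 2 * ∑' x : ℤ × ℤ, Real.exp (-b * znorm x) ≤ Real.exp 2 * (64 / b ^ 2) :=
      mul_le_mul_of_nonneg_left h2 (Real.exp_pos _).le
    refine (h1.trans h3).trans ?_
    have h4 : (64 : ℝ) ≤ Real.exp 6 := by
      have h5 : (2 : ℝ) ≤ Real.exp 1 := by
        have := Real.add_one_le_exp (1 : ℝ)
        linarith
      have h6 : Real.exp 6 = Real.exp 1 ^ 6 := by
        rw [← Real.exp_nat_mul]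
        norm_num
      rw [h6]
      calc (64 : ℝ) = 2 ^ 6 := by norm_num
        _ ≤ Real.exp 1 ^ 6 := pow_le_pow_left₀ (by norm_num) h5 6
    have h7 : 64 / b ^ 2 = 64 * Real.exp (2 * (C1 * (1 + β))) := by
      rw [hb, ← Real.exp_nat_mul, div_eq_mul_inv, ← Real.exp_neg]
      congr 2
      push_cast
      ring
    rw [h7]
    calc Real.exp 2 * (64 * Real.exp (2 * (C1 * (1 + β))))
        ≤ Real.exp 2 * (Real.exp 6 * Real.exp (2 * (C1 * (1 + β)))) := by
          refine mul_le_mul_of_nonneg_left ?_ (Real.exp_pos _).le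
          exact mul_le_mul_of_nonneg_right h4 (Real.exp_pos _).le
      _ = Real.exp (8 + 2 * (C1 * (1 + β))) := by
          rw [← Real.exp_add, ← Real.exp_add]
          congr 1
          ring
      _ ≤ Real.exp ((2 * C1 + 8) * (1 + β)) := by
          refine Real.exp_le_exp.2 ?_
          nlinarith
  · intro μ hpos hμ
    refine hb'b.trans ?_
    have hlow : ∀ᶠ n : ℕ in Filter.atTop, b - 2 / n ≤
        -(1 / (n : ℝ)) * Real.log (G (n, 0)) := by
      filter_upwards [Filter.eventually_gt_atTop 0] with n hn
      have hn' : (0 : ℝ) < n := by exact_mod_cast hn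
      have h1 := hbound (n, 0)
      rw [abs_of_pos (hpos n)] at h1
      have h2 : znorm ((n : ℤ), (0 : ℤ)) = n := by
        unfold znorm
        simp
      rw [h2] at h1
      have h3 : Real.log (G (n, 0)) ≤ 2 + -b * n := by
        have := Real.log_le_log (hpos n) h1
        rw [← Real.exp_add, Real.log_exp] at this
        exact this
      have h4 : b - 2 / n = -(1 / (n : ℝ)) * (2 + -b * n) := by
        field_simp
        ring
      rw [h4]
      have h5 : (0 : ℝ) < 1 / n := by positivity
      nlinarith
    have hlim2 : Filter.Tendsto (fun n : ℕ => b - 2 / (n : ℝ)) Filter.atTop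
        (nhds (b - 0)) :=
      tendsto_const_nhds.sub (tendsto_const_div_atTop_nhds_zero_nat _)
    rw [sub_zero] at hlim2
    exact le_of_tendsto_of_tendsto hlim2 hμ hlow

end Pool.Agent.Results.MP_8be4c0_mp.AsymptoticFreedomScale
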